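import Pool.Agent.Y503.ST.Wide

/-!
Values taken in tangential approach regions: the final construction.
-/

set_option autoImplicit false

open Set Filter Topology MeasureTheory

namespace Pool.Agent.Y503.ST

open Real Complex Pool.Agent.H800R2.Stolz

/-- the good event -/
def Gd2 (ω : ℕ → ℝ) (q : ℝ × ℂ) : Prop := ∀ᶠ n in atTop,
    √(av n) < ‖W av (fun k => qv k * q.1) n ω - q.2‖

theorem good3 (μ : Measure ℂ) [SFinite μ] (h0 : μ {0} = 0) :
    ∀ᵐ ω ∂PP, ∀ᵐ q ∂((volume : Measure ℝ).prod μ), Gd2 ω q := by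
  have m2 : MeasurableSet {p : (ℕ → ℝ) × (ℝ × ℂ) | Gd2 p.1 p.2} := by
    simp only [Gd2, eventually_atTop, ofPred_forall, ofPred_exists]
    refine MeasurableSet.iUnion fun N => MeasurableSet.iInter fun n =>
      MeasurableSet.iInter fun _ => ?_
    have h2 : Measurable (fun p : (ℕ → ℝ) × (ℝ × ℂ) => p.2.2) := measurable_snd.comp measurable_snd
    exact measurableSet_lt measurable_const ((measurable_W4 n).sub h2).norm
  refine (Measure.ae_ae_comm (μ := PP) (ν := (volume : Measure ℝ).prod μ) (p := Gd2) m2).2 ?_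
  have h3 : ∀ᵐ q ∂((volume : Measure ℝ).prod μ), q.2 ≠ 0 := by
    have h5 : ((volume : Measure ℝ).prod μ) {q : ℝ × ℂ | ¬ q.2 ≠ 0} = 0 := by
      have : {q : ℝ × ℂ | ¬ q.2 ≠ 0} = univ ×ˢ ({0} : Set ℂ) := by
        ext q
        simp
      rw [this, Measure.prod_prod, h0, mul_zero]
    exact h5
  filter_upwards [h3] with q hq
  exact avoid_ae2 _ hq

theorem exists_good3 (μ : Measure ℂ) [SFinite μ] (h0 : μ {0} = 0) :
    ∃ ω : ℕ → ℝ, ∀ᵐ θ : ℝ,
    (∀ K : ℕ, ∃ n, (K : ℝ) < ‖W av (fun k => qv k * θ) n ω‖) ∧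
    ∀ᵐ w ∂μ, ∀ᶠ n in atTop, √(av n) < ‖W av (fun k => qv k * θ) n ω - w‖ := by
  obtain ⟨ω, h1, h2⟩ := (good1.and (good3 μ h0)).exists
  exact ⟨ω, h1.and (Measure.ae_ae_of_ae_prod h2)⟩

theorem V_mono_ev {f : ℂ → ℂ} {P : ℂ} {S T : Set ℂ} (h : ∀ᶠ z in 𝓝 P, z ∈ S → z ∈ T) :
    V f P S ⊆ V f P T := by
  rintro w ⟨z, hz1, hz2, hz3, hz4⟩
  obtain ⟨N, hN⟩ := eventually_atTop.1 (hz3.eventually h)
  refine ⟨fun k => z (k + N), fun a b hab => ?_, fun k => hN _ (by omega) (hz2 _),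
    hz3.comp (tendsto_add_atTop_nat N), fun k => hz4 _⟩
  have := hz1 hab
  omega

theorem ev_wide {P : ℂ} (hP : ‖P‖ = 1) (C δ : ℝ) :
    ∀ᶠ z in 𝓝 P, z ∈ stolz P C δ → z ∈ wide P := by
  have h1 : Tendsto (fun z : ℂ => 1 - ‖z‖) (𝓝 P) (𝓝 0) := by
    have := (tendsto_const_nhds (x := (1 : ℝ))).sub (tendsto_id (x := 𝓝 P)).norm
    simpa [hP] using this
  have h2 : ∀ᶠ z in 𝓝 P, 1 - ‖z‖ < Real.exp (-(max C 1 ^ 9)) :=
    h1.eventually (gt_mem_nhds (Real.exp_pos _))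
  filter_upwards [h2] with z hz hzS
  have ht : 0 < 1 - ‖z‖ := by linarith [hzS.1]
  refine ⟨hzS.1, hzS.2.1.trans_le ?_⟩
  rw [mul_comm]
  refine mul_le_mul_of_nonneg_left ?_ ht.le
  have h3 : max C 1 ^ 9 ≤ -Real.log (1 - ‖z‖) := by
    have := Real.log_le_log ht hz.le
    rw [Real.log_exp] at this
    linarith
  have h4 : (0 : ℝ) ≤ max C 1 := le_trans zero_le_one (le_max_right _ _)
  calc C ≤ max C 1 := le_max_left _ _
    _ = (max C 1 ^ 9) ^ ((1 : ℝ) / 9) := by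
        rw [← Real.rpow_natCast (max C 1) 9, ← Real.rpow_mul h4]
        norm_num
    _ ≤ _ := Real.rpow_le_rpow (by positivity) h3 (by norm_num)

/-- Unbounded on the radius, hence no finite limit in any Stolz angle. -/
theorem no_lim {f : ℂ → ℂ} {P : ℂ} (hP : ‖P‖ = 1)
    (h : ∀ B : ℝ, ∃ᶠ r : ℝ in 𝓝[<] 1, B < ‖f (r * P)‖) {C : ℝ} (hC : 1 < C) {δ : ℝ} (hδ : 0 < δ) :
    ¬ ∃ w : ℂ, Tendsto f (𝓝[stolz P C δ] P) (𝓝 w) := by
  rintro ⟨w, hw⟩
  have h1 : ∀ᶠ r : ℝ in 𝓝[<] 1, (r : ℂ) * P ∈ stolz P C δ := by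
    have h2 : ∀ᶠ r : ℝ in 𝓝[<] 1, max 0 (1 - δ) < r :=
      nhdsWithin_le_nhds (lt_mem_nhds (max_lt one_pos (by linarith)))
    filter_upwards [h2, self_mem_nhdsWithin] with r hr hr1
    have hr0 : 0 < r := (le_max_left _ _).trans_lt hr
    have hrd : 1 - δ < r := (le_max_right _ _).trans_lt hr
    have hr1' : r < 1 := hr1
    have e1 : ‖(r : ℂ) * P‖ = r := by
      rw [norm_mul, hP, mul_one, Complex.norm_real, Real.norm_of_nonneg hr0.le]
    have e2 : ‖(r : ℂ) * P - P‖ = 1 - r := by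
      have : (r : ℂ) * P - P = ((-(1 - r) : ℝ) : ℂ) * P := by
        push_cast
        ring
      rw [this, norm_mul, hP, mul_one, Complex.norm_real, norm_neg, Real.norm_of_nonneg (by linarith)]
    refine ⟨by rw [e1]; exact hr1', ?_, ?_⟩
    · rw [e1, e2]
      nlinarith
    · rw [e2]
      linarith
  have h3 : Tendsto (fun r : ℝ => (r : ℂ) * P) (𝓝[<] 1) (𝓝[stolz P C δ] P) := by
    refine tendsto_nhdsWithin_iff.2 ⟨?_, h1⟩
    have h4 : Tendsto (fun r : ℝ => (r : ℂ) * P) (𝓝 1) (𝓝 (((1 : ℝ) : ℂ) * P)) :=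
      ((Complex.continuous_ofReal.mul continuous_const).tendsto 1)
    rw [Complex.ofReal_one, one_mul] at h4
    exact h4.mono_left nhdsWithin_le_nhds
  have h5 := (hw.comp h3).norm
  have h6 : ∀ᶠ r : ℝ in 𝓝[<] 1, ‖f (r * P)‖ < ‖w‖ + 1 :=
    h5.eventually (gt_mem_nhds (by linarith))
  obtain ⟨r, hr1, hr2⟩ := ((h (‖w‖ + 1)).and_eventually h6).exists
  linarith

theorem main3 (μ : Measure ℂ) [SFinite μ] :
    ∃ f : ℂ → ℂ, DifferentiableOn ℂ f (Metric.ball 0 1) ∧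
    ∀ᵐ θ : ℝ, (∀ B : ℝ, ∃ᶠ r : ℝ in 𝓝[<] 1, B < ‖f (r * Complex.exp (θ * I))‖) ∧
        μ (V f (Complex.exp (θ * I)) (wide (Complex.exp (θ * I)))) = 0 := by
  obtain ⟨c, hc⟩ := exists_shift μ
  let e : ℂ → ℂ := fun w => w - c
  have hem : Measurable e := measurable_id.sub_const c
  have h0 : (μ.map e) {0} = 0 := by
    rw [Measure.map_apply hem (measurableSet_singleton 0)]
    have : e ⁻¹' {0} = {c} := by
      ext w
      simp [e, sub_eq_zero]
    rw [this, hc]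
  obtain ⟨ω, hω⟩ := exists_good3 (μ.map e) h0
  refine ⟨fun z => F ω z + c, (F_differentiable ω).add_const c, ?_⟩
  filter_upwards [hω] with θ hθ
  refine ⟨fun B => ?_, ?_⟩
  · refine (radial ω θ hθ.1 (B + ‖c‖)).mono fun r hr => ?_
    have h1 : ‖F ω (r * Complex.exp (θ * I))‖ ≤ ‖F ω (r * Complex.exp (θ * I)) + c‖ + ‖c‖ := by
      have := norm_sub_le (F ω (r * Complex.exp (θ * I)) + c) c
      rwa [add_sub_cancel_right] at this
    linarith
  · have h2 := ae_of_ae_map hem.aemeasurable hθ.2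
    refine measure_mono_null ?_ (show μ {w | ¬ ∀ᶠ n in atTop,
      √(av n) < ‖W av (fun k => qv k * θ) n ω - e w‖} = 0 from h2)
    rintro w ⟨z, hz1, hz2, hz3, hz4⟩
    have h3 : e w ∈ V (F ω) (Complex.exp (θ * I)) (wide (Complex.exp (θ * I))) :=
      ⟨z, hz1, hz2, hz3, fun k => by
        have := hz4 k
        simp only [e]
        rw [← this]
        ring⟩
    exact V_subset2 ω θ h3

theorem final (μ : Measure ℂ) [SFinite μ] (D : Set ℂ) (hD : D.Countable) :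
    ∃ f : ℂ → ℂ, DifferentiableOn ℂ f (Metric.ball 0 1) ∧
    ∀ᵐ θ : ℝ, (∀ B : ℝ, ∃ᶠ r : ℝ in 𝓝[<] 1, B < ‖f (r * Complex.exp (θ * I))‖) ∧
      (∀ C > 1, ∀ δ > 0, ¬ ∃ w : ℂ, Tendsto f
        (𝓝[stolz (Complex.exp (θ * I)) C δ] (Complex.exp (θ * I))) (𝓝 w)) ∧
      (∀ C > 1, ∀ δ > 0, V f (Complex.exp (θ * I)) (stolz (Complex.exp (θ * I)) C δ) ⊆
        V f (Complex.exp (θ * I)) (wide (Complex.exp (θ * I)))) ∧
      μ (V f (Complex.exp (θ * I)) (wide (Complex.exp (θ * I)))) = 0 ∧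
      Disjoint D (V f (Complex.exp (θ * I)) (wide (Complex.exp (θ * I)))) := by
  haveI : Countable D := hD.to_subtype
  let ν : Measure ℂ := Measure.sum (fun d : D => Measure.dirac d.1)
  obtain ⟨f, hf, h⟩ := main3 (μ + ν)
  refine ⟨f, hf, ?_⟩
  filter_upwards [h] with θ hθ
  have hP : ‖Complex.exp (θ * I)‖ = 1 := Complex.norm_exp_ofReal_mul_I θ
  have h1 : μ (V f (Complex.exp (θ * I)) (wide (Complex.exp (θ * I)))) +
      ν (V f (Complex.exp (θ * I)) (wide (Complex.exp (θ * I)))) = 0 := by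
    have := hθ.2
    rwa [Measure.add_apply] at this
  rw [add_eq_zero] at h1
  refine ⟨hθ.1, fun C hC δ hδ => no_lim hP hθ.1 hC hδ, fun C _ δ _ => V_mono_ev (ev_wide hP C δ),
    h1.1, ?_⟩
  rw [Set.disjoint_left]
  intro d hd hdV
  have h2 : ν {d} = 0 := measure_mono_null (singleton_subset_iff.2 hdV) h1.2
  have h3 : Measure.dirac d {d} ≤ ν {d} :=
    (Measure.le_iff'.1 (Measure.le_sum (fun d : D => Measure.dirac d.1) ⟨d, hd⟩)) _
  rw [h2, Measure.dirac_apply_of_mem (mem_singleton d)] at h3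
  exact absurd h3 (by norm_num)

end Pool.Agent.Y503.ST
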