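import Pool.Agent.H800R2.StolzF

/-!
Values in Stolz angles and arbitrary measures.
-/

set_option autoImplicit false

open Set Filter Topology MeasureTheory

namespace Pool.Agent.Y503.ST

open Real Complex Pool.Agent.H800R2.Stolz

theorem good2 (μ : Measure ℂ) [SFinite μ] (h0 : μ {0} = 0) :
    ∀ᵐ ω ∂PP, ∀ᵐ q ∂((volume : Measure ℝ).prod μ), Gd ω q := by
  have m2 : MeasurableSet {p : (ℕ → ℝ) × (ℝ × ℂ) | Gd p.1 p.2} := by
    simp only [Gd, eventually_atTop, ofPred_forall, ofPred_exists]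
    refine MeasurableSet.iInter fun K => MeasurableSet.iUnion fun N => MeasurableSet.iInter fun n =>
      MeasurableSet.iInter fun _ => ?_
    have h2 : Measurable (fun p : (ℕ → ℝ) × (ℝ × ℂ) => p.2.2) := measurable_snd.comp measurable_snd
    exact measurableSet_lt measurable_const ((measurable_W4 n).sub h2).norm
  refine (Measure.ae_ae_comm (μ := PP) (ν := (volume : Measure ℝ).prod μ) (p := Gd) m2).2 ?_
  have h3 : ∀ᵐ q ∂((volume : Measure ℝ).prod μ), q.2 ≠ 0 := by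
    have h5 : ((volume : Measure ℝ).prod μ) {q : ℝ × ℂ | ¬ q.2 ≠ 0} = 0 := by
      have : {q : ℝ × ℂ | ¬ q.2 ≠ 0} = univ ×ˢ ({0} : Set ℂ) := by
        ext q
        simp
      rw [this, Measure.prod_prod, h0, mul_zero]
    exact h5
  filter_upwards [h3] with q hq
  exact avoid_ae _ hq

theorem exists_good (μ : Measure ℂ) [SFinite μ] (h0 : μ {0} = 0) :
    ∃ ω : ℕ → ℝ, ∀ᵐ θ : ℝ,
    (∀ K : ℕ, ∃ n, (K : ℝ) < ‖W av (fun k => qv k * θ) n ω‖) ∧
    ∀ᵐ w ∂μ, ∀ K : ℕ, ∀ᶠ n in atTop, K * av n < ‖W av (fun k => qv k * θ) n ω - w‖ := by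
  obtain ⟨ω, h1, h2⟩ := (good1.and (good2 μ h0)).exists
  exact ⟨ω, h1.and (Measure.ae_ae_of_ae_prod h2)⟩

/-- Unbounded partial sums: the function is unbounded on the radius. -/
theorem radial (ω : ℕ → ℝ) (θ : ℝ)
    (h : ∀ K : ℕ, ∃ n, (K : ℝ) < ‖W av (fun k => qv k * θ) n ω‖) (B : ℝ) :
    ∃ᶠ r : ℝ in 𝓝[<] 1, B < ‖F ω (r * Complex.exp (θ * I))‖ := by
  set ζ := Complex.exp (θ * I) with hζ
  have hζ1 : ‖ζ‖ = 1 := Complex.norm_exp_ofReal_mul_I θ
  have htau1 : ∀ m, tau (m + 1) ≤ 1 / 2 := fun m => by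
    refine (tau_le (m + 1)).trans ?_
    rw [div_le_div_iff₀ (by positivity) (by norm_num)]
    push_cast
    have : (0 : ℝ) ≤ m := Nat.cast_nonneg m
    linarith
  -- unboundedness beyond every index
  have hbig : ∀ (B : ℝ) (M : ℕ), ∃ m, M ≤ m ∧ B < ‖F ω ((1 - tau (m + 1) : ℝ) * ζ)‖ := by
    intro B M
    have hB : ∃ K : ℕ, ∀ n ≤ M, ‖W av (fun k => qv k * θ) n ω‖ ≤ K := by
      obtain ⟨K, hK⟩ := exists_nat_ge (∑ n ∈ Finset.range (M + 1),
        ‖W av (fun k => qv k * θ) n ω‖)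
      refine ⟨K, fun n hn => le_trans ?_ hK⟩
      exact Finset.single_le_sum (f := fun n => ‖W av (fun k => qv k * θ) n ω‖)
        (fun _ _ => norm_nonneg _) (Finset.mem_range.mpr (by omega))
    obtain ⟨K, hK⟩ := hB
    obtain ⟨n, hn⟩ := h (max K ⌈max B 0 + 4⌉₊)
    have hn1 : (K : ℝ) < ‖W av (fun k => qv k * θ) n ω‖ :=
      lt_of_le_of_lt (by exact_mod_cast le_max_left _ _) hn
    have hn2 : max B 0 + 4 < ‖W av (fun k => qv k * θ) n ω‖ :=
      lt_of_le_of_lt ((Nat.le_ceil _).trans (by exact_mod_cast le_max_right _ _)) hn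
    have hnM : M < n := by
      by_contra hc
      push Not at hc
      exact absurd (hK n hc) (not_le.mpr hn1)
    obtain ⟨m, rfl⟩ : ∃ m, n = m + 1 := ⟨n - 1, by omega⟩
    refine ⟨m, by omega, ?_⟩
    have hzn : ‖((1 - tau (m + 1) : ℝ) : ℂ) * ζ‖ = 1 - tau (m + 1) := by
      rw [norm_mul, Complex.norm_real, hζ1, mul_one, Real.norm_of_nonneg (by linarith [htau1 m])]
    have hzd : ‖((1 - tau (m + 1) : ℝ) : ℂ) * ζ - ζ‖ = tau (m + 1) := by
      have e : ((1 - tau (m + 1) : ℝ) : ℂ) * ζ - ζ = ((-tau (m + 1) : ℝ) : ℂ) * ζ := by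
        push_cast
        ring
      rw [e, norm_mul, Complex.norm_real, hζ1, mul_one, norm_neg,
        Real.norm_of_nonneg (tau_pos _).le]
    have h1 := approx ω θ (z := ((1 - tau (m + 1) : ℝ) : ℂ) * ζ)
      (by rw [hzn]; linarith [tau_pos (m + 1)]) (C := 1) (by norm_num)
      (by rw [← hζ, hzd, hzn]; linarith) m (by rw [hzn]; linarith)
      (by rw [hzn]; linarith [tau_succ_lt m])
    have h3 : ‖W av (fun k => qv k * θ) (m + 1) ω‖ ≤ ‖F ω (((1 - tau (m + 1) : ℝ) : ℂ) * ζ)‖ +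
        ‖F ω (((1 - tau (m + 1) : ℝ) : ℂ) * ζ) - W av (fun k => qv k * θ) (m + 1) ω‖ := by
      have e : W av (fun k => qv k * θ) (m + 1) ω = F ω (((1 - tau (m + 1) : ℝ) : ℂ) * ζ) -
          (F ω (((1 - tau (m + 1) : ℝ) : ℂ) * ζ) - W av (fun k => qv k * θ) (m + 1) ω) := by ring
      conv_lhs => rw [e]
      exact norm_sub_le _ _
    have h4 := av_le_one (m + 1)
    have h5 := le_max_left B 0
    linarith
  have hfr : ∃ᶠ m in atTop, B < ‖F ω ((1 - tau (m + 1) : ℝ) * ζ)‖ := by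
    rw [frequently_atTop]
    intro M
    obtain ⟨m, hm1, hm2⟩ := hbig B M
    exact ⟨m, hm1, hm2⟩
  have hten : Tendsto (fun m : ℕ => 1 - tau (m + 1)) atTop (𝓝[<] (1 : ℝ)) := by
    refine tendsto_nhdsWithin_iff.mpr ⟨?_, Eventually.of_forall fun m => ?_⟩
    · have := (tendsto_const_nhds (x := (1 : ℝ))).sub
        (tendsto_tau.comp (tendsto_add_atTop_nat 1))
      simpa using this
    · have := tau_pos (m + 1)
      simp only [mem_Iio]
      linarith
  exact hten.frequently hfr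

theorem exists_shift (μ : Measure ℂ) [SFinite μ] : ∃ c : ℂ, μ {c} = 0 := by
  have h1 : Set.Countable {t : ℂ | 0 < μ {a | id a = t}} :=
    Measure.countable_meas_level_set_pos measurable_id
  have h2 : ¬ Set.Countable (univ : Set ℂ) := not_countable_complex
  by_contra hc
  push Not at hc
  apply h2
  refine h1.mono fun c _ => ?_
  have := hc c
  simpa [pos_iff_ne_zero] using this

theorem main (μ : Measure ℂ) [SFinite μ] : ∃ f : ℂ → ℂ, DifferentiableOn ℂ f (Metric.ball 0 1) ∧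
    ∀ᵐ θ : ℝ, (∀ B : ℝ, ∃ᶠ r : ℝ in 𝓝[<] 1, B < ‖f (r * Complex.exp (θ * I))‖) ∧
      ∀ C > 1, ∀ δ > 0,
        μ (V f (Complex.exp (θ * I)) (stolz (Complex.exp (θ * I)) C δ)) = 0 := by
  obtain ⟨c, hc⟩ := exists_shift μ
  let e : ℂ → ℂ := fun w => w - c
  have hem : Measurable e := measurable_id.sub_const c
  have h0 : (μ.map e) {0} = 0 := by
    rw [Measure.map_apply hem (measurableSet_singleton 0)]
    have : e ⁻¹' {0} = {c} := by
      ext w
      simp [e, sub_eq_zero]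
    rw [this, hc]
  obtain ⟨ω, hω⟩ := exists_good (μ.map e) h0
  refine ⟨fun z => F ω z + c, (F_differentiable ω).add_const c, ?_⟩
  filter_upwards [hω] with θ hθ
  refine ⟨fun B => ?_, fun C hC δ _ => ?_⟩
  · refine (radial ω θ hθ.1 (B + ‖c‖)).mono fun r hr => ?_
    have h1 : ‖F ω (r * Complex.exp (θ * I))‖ ≤ ‖F ω (r * Complex.exp (θ * I)) + c‖ + ‖c‖ := by
      have := norm_sub_le (F ω (r * Complex.exp (θ * I)) + c) c
      rwa [add_sub_cancel_right] at this
    linarith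
  · have h2 := ae_of_ae_map hem.aemeasurable hθ.2
    refine measure_mono_null ?_ (show μ {w | ¬ ∀ K : ℕ, ∀ᶠ n in atTop,
      K * av n < ‖W av (fun k => qv k * θ) n ω - e w‖} = 0 from h2)
    rintro w ⟨z, hz1, hz2, hz3, hz4⟩
    have h3 : e w ∈ V (F ω) (Complex.exp (θ * I)) (stolz (Complex.exp (θ * I)) C δ) :=
      ⟨z, hz1, hz2, hz3, fun k => by
        have := hz4 k
        simp only [e]
        rw [← this]
        ring⟩
    exact V_subset ω θ hC h3

end Pool.Agent.Y503.ST
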