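import Pool.Agent.Y503.ST.Main

/-!
Approach regions wider than all Stolz angles.
-/

set_option autoImplicit false

open Set Filter Topology MeasureTheory

namespace Pool.Agent.Y503.ST

open Real Complex Pool.Agent.H800R2.Stolz

theorem hit_prob2 (c : ℕ → ℝ) {w : ℂ} (hw : w ≠ 0) :
    ∃ K : ℝ, 0 ≤ K ∧ ∀ j : ℕ,
      PP (D1 av c w (√((2 ^ (4 ^ j) : ℝ)⁻¹)) (NN (j + 1)))ᶜ ≤
        ENNReal.ofReal ((j + K) * 4 / 4 ^ j) := by
  have hwn : 0 < ‖w‖ := norm_pos_iff.2 hw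
  refine ⟨4 + |Real.log ‖w‖| + ‖w‖ ^ 2, by positivity, fun j => ?_⟩
  set r : ℝ := √((2 ^ (4 ^ j) : ℝ)⁻¹) with hr
  set R : ℝ := 2 ^ (j + 3) with hR
  have hr0 : 0 < r := by positivity
  have hR0 : 0 < R := by positivity
  have h4j : (1 : ℝ) ≤ 4 ^ j := one_le_pow₀ (by norm_num)
  have hlog2 : 1 / 2 < Real.log 2 := by
    have := Real.log_two_gt_d9
    linarith
  have hlog2' : Real.log 2 < 1 := by
    have := Real.log_two_lt_d9
    linarith
  have hlogr : Real.log r = -(4 ^ j * Real.log 2) / 2 := by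
    rw [hr, Real.log_sqrt (by positivity), Real.log_inv, Real.log_pow]
    push_cast
    ring
  have hlogr' : (4 : ℝ) ^ j / 4 ≤ - Real.log r := by
    rw [hlogr]
    nlinarith
  have hlogR : Real.log R = (j + 3) * Real.log 2 := by
    rw [hR, Real.log_pow]
    push_cast
    ring
  have hjn : (0 : ℝ) ≤ j := Nat.cast_nonneg j
  have hlogR0 : 0 ≤ Real.log R := by
    rw [hlogR]
    positivity
  have hlogR1 : Real.log R ≤ j + 3 := by
    rw [hlogR]
    nlinarith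
  have hrR : r ≤ R := by
    rw [← Real.log_le_log_iff hr0 hR0]
    linarith
  have hR2 : R ^ 2 = 64 * 4 ^ j := by
    rw [hR, ← pow_mul, mul_comm, pow_mul]
    norm_num
    rw [pow_add]
    norm_num
    ring
  have h1 := hitting av c av_pos w hr0 hrR (NN (j + 1))
  have h2 : ENNReal.ofReal (Real.log R - Real.log r) * PP (D1 av c w r (NN (j + 1)))ᶜ ≤
      ENNReal.ofReal (G1 w r R 0 + sg av (NN (j + 1)) / R ^ 2) := le_trans le_add_self h1
  have h3 : G1 w r R 0 + sg av (NN (j + 1)) / R ^ 2 ≤ j + (4 + |Real.log ‖w‖| + ‖w‖ ^ 2) := by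
    have h4 : sg av (NN (j + 1)) / R ^ 2 ≤ 1 := by
      rw [hR2]
      exact div_le_one_of_le₀ (sg_block j) (by positivity)
    have h5 : G1 w r R 0 ≤ Real.log R - Real.log ‖w‖ + ‖w‖ ^ 2 := by
      unfold G1
      rw [zero_sub, norm_neg]
      have h6 : Real.log ‖w‖ ≤ Real.log (max ‖w‖ r) := Real.log_le_log hwn (le_max_left _ _)
      have h7 : ‖w‖ ^ 2 / R ^ 2 ≤ ‖w‖ ^ 2 := by
        apply div_le_self (by positivity)
        rw [hR2]
        nlinarith
      linarith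
    have h6 := neg_abs_le (Real.log ‖w‖)
    linarith
  set p := PP (D1 av c w r (NN (j + 1)))ᶜ with hp
  have hpt : p ≠ ⊤ := measure_ne_top _ _
  have hden : 0 < Real.log R - Real.log r := by
    have : (0 : ℝ) < 4 ^ j := by positivity
    linarith
  have h8 : (Real.log R - Real.log r) * p.toReal ≤ j + (4 + |Real.log ‖w‖| + ‖w‖ ^ 2) := by
    have h9 := ENNReal.toReal_mono ENNReal.ofReal_ne_top h2
    rw [ENNReal.toReal_mul, ENNReal.toReal_ofReal hden.le, ENNReal.toReal_ofReal] at h9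
    · exact h9.trans h3
    · have := G1_nonneg w hr0 hrR 0
      have := sg_nonneg av (NN (j + 1))
      positivity
  rw [← ENNReal.ofReal_toReal hpt]
  refine ENNReal.ofReal_le_ofReal ?_
  rw [le_div_iff₀ (by positivity)]
  have h10 : (4 : ℝ) ^ j / 4 ≤ Real.log R - Real.log r := by linarith
  have h11 : (4 : ℝ) ^ j / 4 * p.toReal ≤ (Real.log R - Real.log r) * p.toReal :=
    mul_le_mul_of_nonneg_right h10 ENNReal.toReal_nonneg
  nlinarith

theorem avoid_ae2 (c : ℕ → ℝ) {w : ℂ} (hw : w ≠ 0) :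
    ∀ᵐ ω ∂PP, ∀ᶠ n in atTop, √(av n) < ‖W av c n ω - w‖ := by
  obtain ⟨K, hK, hj0⟩ := hit_prob2 c hw
  have hsum : Summable (fun j : ℕ => ((j : ℝ) + K) * 4 / 4 ^ j) := by
    have h2 : Summable (fun j : ℕ => (j : ℝ) ^ 1 * (1 / 4) ^ j) :=
      summable_pow_mul_geometric_of_norm_lt_one 1 (by norm_num)
    have h3 : Summable (fun j : ℕ => ((1 : ℝ) / 4) ^ j) :=
      summable_geometric_of_lt_one (by norm_num) (by norm_num)
    refine ((h2.add (h3.mul_left K)).mul_left 4).congr fun j => ?_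
    rw [one_div, inv_pow]
    field_simp
  have hbc := ae_eventually_notMem (μ := PP) (s := fun j : ℕ =>
    (D1 av c w (√((2 ^ (4 ^ j) : ℝ)⁻¹)) (NN (j + 1)))ᶜ) (by
      refine ne_top_of_le_ne_top ?_ (ENNReal.tsum_le_tsum fun j => hj0 j)
      rw [← ENNReal.ofReal_tsum_of_nonneg (fun j => by positivity) hsum]
      exact ENNReal.ofReal_ne_top)
  filter_upwards [hbc] with ω hω
  obtain ⟨J, hJ⟩ := eventually_atTop.1 hω
  rw [eventually_atTop]
  refine ⟨NN J, fun n hn => ?_⟩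
  obtain ⟨j, hj1, hj2, hj3⟩ := exists_block hn
  have h1 := hJ j hj1
  rw [notMem_compl_iff] at h1
  have h2 := h1 n hj3
  refine lt_of_le_of_lt ?_ h2
  exact Real.sqrt_le_sqrt (av_le_of_block hj2)

theorem qv_le (n : ℕ) : qv n ≤ 2 ^ (n * (n + 1)) := by
  induction n with
  | zero => simp [qv]
  | succ n ih =>
    rw [qv_succ]
    have h1 : 2 * (n + 1) * (n + 2) ≤ 2 ^ (2 * (n + 1)) := by
      clear ih
      induction n with
      | zero => norm_num
      | succ k ihk =>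
        have : 2 ^ (2 * (k + 1 + 1)) = 4 * 2 ^ (2 * (k + 1)) := by
          rw [show 2 * (k + 1 + 1) = 2 * (k + 1) + 2 by ring, pow_add]
          ring
        rw [this]
        nlinarith
    calc 2 * (n + 1) * (n + 2) * qv n ≤ 2 ^ (2 * (n + 1)) * 2 ^ (n * (n + 1)) :=
          Nat.mul_le_mul h1 ih
      _ = 2 ^ ((n + 1) * (n + 1 + 1)) := by
          rw [← pow_add]
          congr 1
          ring

/-- Lower bound for the thresholds. -/
theorem log_tau (m : ℕ) : -Real.log (tau (m + 1)) ≤ ((m : ℝ) + 3) ^ 2 := by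
  have h1 : (2 : ℝ) ^ ((m + 1) * (m + 2) + (m + 2) + (m + 3)) * tau (m + 1) ≥ 1 := by
    unfold tau
    have hq : ((qv (m + 1) : ℕ) : ℝ) ≤ 2 ^ ((m + 1) * (m + 2)) := by
      exact_mod_cast qv_le (m + 1)
    have hq0 : (0 : ℝ) < qv (m + 1) := by exact_mod_cast qv_pos (m + 1)
    have h2 : ((m : ℝ) + 2) ≤ 2 ^ (m + 2) := by
      have : m + 2 < 2 ^ (m + 2) := Nat.lt_two_pow_self
      exact_mod_cast this.le
    have h3 : √((m : ℝ) + 3) ≤ 2 ^ (m + 3) := by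
      have h4 : ((m : ℝ) + 3) ≤ 2 ^ (m + 3) := by
        have : m + 3 < 2 ^ (m + 3) := Nat.lt_two_pow_self
        exact_mod_cast this.le
      have h5 : √((m : ℝ) + 3) ≤ (m : ℝ) + 3 := by
        rw [Real.sqrt_le_left (by positivity)]
        nlinarith [(Nat.cast_nonneg m : (0 : ℝ) ≤ m)]
      linarith
    have e1 : av (m + 1 + 1) = 1 / √((m : ℝ) + 3) := by
      unfold av
      push_cast
      congr 2
      ring
    rw [e1, ge_iff_le]
    have hs : 0 < √((m : ℝ) + 3) := by positivity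
    have e2 : (2 : ℝ) ^ ((m + 1) * (m + 2) + (m + 2) + (m + 3)) *
        (1 / √((m : ℝ) + 3) / ((((m + 1 : ℕ) : ℝ) + 1) * (qv (m + 1) : ℝ))) =
        (2 ^ ((m + 1) * (m + 2)) / (qv (m + 1) : ℝ)) * (2 ^ (m + 2) / ((m : ℝ) + 2)) *
          (2 ^ (m + 3) / √((m : ℝ) + 3)) := by
      rw [pow_add, pow_add]
      push_cast
      field_simp
      ring
    rw [e2]
    have f1 : (1 : ℝ) ≤ 2 ^ ((m + 1) * (m + 2)) / (qv (m + 1) : ℝ) := (one_le_div hq0).mpr hq
    have f2 : (1 : ℝ) ≤ 2 ^ (m + 2) / ((m : ℝ) + 2) := (one_le_div (by positivity)).mpr h2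
    have f3 : (1 : ℝ) ≤ 2 ^ (m + 3) / √((m : ℝ) + 3) := (one_le_div hs).mpr h3
    calc (1 : ℝ) = 1 * 1 * 1 := by ring
      _ ≤ _ := by gcongr
  have h2 := Real.log_le_log one_pos h1
  rw [Real.log_one, Real.log_mul (by positivity) (tau_pos _).ne', Real.log_pow] at h2
  have h3 : Real.log 2 < 0.7 := by
    have := Real.log_two_lt_d9
    linarith
  have h4 : (0 : ℝ) ≤ m := Nat.cast_nonneg m
  push_cast at h2
  have h5 : (((m : ℝ) + 1) * (m + 2) + (m + 2) + (m + 3)) * Real.log 2 ≤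
      (((m : ℝ) + 1) * (m + 2) + (m + 2) + (m + 3)) * 0.7 :=
    mul_le_mul_of_nonneg_left h3.le (by positivity)
  nlinarith

/-- An approach region at the boundary point `P` which contains a neighbourhood of `P` in every
Stolz angle at `P`. -/
def wide (P : ℂ) : Set ℂ :=
  {z | ‖z‖ < 1 ∧ ‖z - P‖ < (1 - ‖z‖) * (-Real.log (1 - ‖z‖)) ^ ((1 : ℝ) / 9)}

theorem eventually_growth : ∀ᶠ m : ℕ in atTop,
    (((m : ℝ) + 3) ^ 2) ^ ((1 : ℝ) / 9) + 2 ≤ ((m : ℝ) + 2) ^ ((1 : ℝ) / 4) := by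
  have h1 : ∀ᶠ x : ℝ in atTop, ((x + 3) ^ 2) ^ ((1 : ℝ) / 9) + 2 ≤ (x + 2) ^ ((1 : ℝ) / 4) := by
    have h2 : Tendsto (fun x : ℝ => (x + 2) ^ ((1 : ℝ) / 36)) atTop atTop :=
      (tendsto_rpow_atTop (by norm_num)).comp (tendsto_atTop_add_const_right _ 2 tendsto_id)
    filter_upwards [h2.eventually_ge_atTop 4, eventually_ge_atTop 1] with x hx hx1
    have hp : (1 : ℝ) ≤ (x + 2) ^ ((2 : ℝ) / 9) := Real.one_le_rpow (by linarith) (by norm_num)
    have e1 : (x + 2) ^ ((1 : ℝ) / 4) = (x + 2) ^ ((2 : ℝ) / 9) * (x + 2) ^ ((1 : ℝ) / 36) := by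
      rw [← Real.rpow_add (by linarith)]
      norm_num
    have e2 : ((x + 3) ^ 2) ^ ((1 : ℝ) / 9) = (x + 3) ^ ((2 : ℝ) / 9) := by
      rw [← Real.rpow_natCast (x + 3) 2, ← Real.rpow_mul (by linarith)]
      norm_num
    have e3 : (x + 3) ^ ((2 : ℝ) / 9) ≤ 2 * (x + 2) ^ ((2 : ℝ) / 9) := by
      calc (x + 3) ^ ((2 : ℝ) / 9) ≤ (2 * (x + 2)) ^ ((2 : ℝ) / 9) :=
            Real.rpow_le_rpow (by linarith) (by linarith) (by norm_num)
        _ = 2 ^ ((2 : ℝ) / 9) * (x + 2) ^ ((2 : ℝ) / 9) :=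
            Real.mul_rpow (by norm_num) (by linarith)
        _ ≤ 2 * (x + 2) ^ ((2 : ℝ) / 9) := by
            refine mul_le_mul_of_nonneg_right ?_ (by positivity)
            calc (2 : ℝ) ^ ((2 : ℝ) / 9) ≤ 2 ^ (1 : ℝ) :=
                  Real.rpow_le_rpow_of_exponent_le (by norm_num) (by norm_num)
              _ = 2 := by norm_num
    rw [e1, e2]
    nlinarith
  exact tendsto_natCast_atTop_atTop.eventually h1

theorem V_subset2 (ω : ℕ → ℝ) (θ : ℝ) :
    V (F ω) (Complex.exp (θ * I)) (wide (Complex.exp (θ * I))) ⊆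
      {w | ¬ ∀ᶠ n in atTop, √(av n) < ‖W av (fun k => qv k * θ) n ω - w‖} := by
  rintro w ⟨z, -, hzS, hzt, hzw⟩
  simp only [mem_ofPred_eq, not_eventually]
  rw [frequently_atTop]
  intro M
  obtain ⟨M₀, hM₀⟩ := eventually_atTop.1 eventually_growth
  set ζ := Complex.exp (θ * I) with hζ
  have hζ1 : ‖ζ‖ = 1 := Complex.norm_exp_ofReal_mul_I θ
  have hlim : Tendsto (fun k => 1 - ‖z k‖) atTop (𝓝 0) := by
    have := (tendsto_const_nhds (x := (1 : ℝ))).sub hzt.norm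
    rwa [hζ1, sub_self] at this
  have hev : ∀ᶠ k in atTop, ∀ n ∈ Finset.range (max M M₀ + 1), 1 - ‖z k‖ < tau n := by
    rw [Finset.eventually_all]
    intro n _
    exact hlim.eventually (gt_mem_nhds (tau_pos n))
  obtain ⟨k, hk⟩ := hev.exists
  have hzk := hzS k
  have ht0 : 0 < 1 - ‖z k‖ := by linarith [hzk.1]
  obtain ⟨m, hm1, hm2, hm3⟩ := exists_index ht0 (max M M₀)
    (fun n hn => hk n (by simpa using Nat.lt_succ_of_le hn))
  refine ⟨m + 1, by omega, ?_⟩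
  rw [not_lt, ← hzw k, norm_sub_rev]
  set A : ℝ := (-Real.log (1 - ‖z k‖)) ^ ((1 : ℝ) / 9) with hA
  have hlog0 : 0 ≤ -Real.log (1 - ‖z k‖) := by
    have := Real.log_nonpos ht0.le (by linarith [norm_nonneg (z k)])
    linarith
  have hA0 : 0 ≤ A := Real.rpow_nonneg hlog0 _
  refine (approx ω θ hzk.1 hA0 (le_of_le_of_eq hzk.2.le (mul_comm _ _)) m hm2 hm3).trans ?_
  have h1 : -Real.log (1 - ‖z k‖) ≤ ((m : ℝ) + 3) ^ 2 :=
    (neg_le_neg (Real.log_le_log (tau_pos _) hm2)).trans (log_tau m)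
  have h2 : A ≤ (((m : ℝ) + 3) ^ 2) ^ ((1 : ℝ) / 9) := Real.rpow_le_rpow hlog0 h1 (by norm_num)
  have h3 := hM₀ m (by omega)
  have h4 : A + 2 ≤ ((m : ℝ) + 2) ^ ((1 : ℝ) / 4) := by linarith
  have hm0 : (0 : ℝ) < (m : ℝ) + 2 := by positivity
  have e1 : av (m + 1) = (((m : ℝ) + 2) ^ ((1 : ℝ) / 4) * ((m : ℝ) + 2) ^ ((1 : ℝ) / 4))⁻¹ := by
    unfold av
    rw [← Real.rpow_add hm0, Real.sqrt_eq_rpow, one_div]
    push_cast
    norm_num
    ring_nf
  set B := ((m : ℝ) + 2) ^ ((1 : ℝ) / 4) with hB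
  have hB0 : 0 < B := Real.rpow_pos_of_pos hm0 _
  have e2 : √(av (m + 1)) = B⁻¹ := by
    rw [e1, mul_inv, Real.sqrt_mul_self (by positivity)]
  rw [e2, e1]
  calc (A + 2) * (B * B)⁻¹ ≤ B * (B * B)⁻¹ := mul_le_mul_of_nonneg_right h4 (by positivity)
    _ = B⁻¹ := by field_simp

end Pool.Agent.Y503.ST
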